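import Pool.Agent.H75.GG.Targets2

/-!
# Row LCG: the machines of a configuration are local
-/

set_option autoImplicit false

namespace Pool.Agent.H11.GG

open Finset Filter Pool.Agent.H6.NB Pool.Agent.H70.OQ Pool.Agent.H75.GS Pool.Agent.H75.GG

theorem pf_LCG (hFMP : T_FMP) (hORC : T_ORC) : T_LCG := by
  intro G ω hL
  have h1 : ∀ l, ∀ w ∈ Spt ω l, ∃ (m : ℕ) (x : Xn m) (z : Ys m 0), w = pst m x z := by
    rintro l w ⟨n, k, -, -, rfl⟩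
    exact ⟨n, _, _, rfl⟩
  have h2 : ∀ n (k : Fin (G.r n)) l, ∀ w ∈ Lat ω n k l,
      ∃ (m : ℕ) (x : Xn m) (z : Ys m 0), w = pst m x z := by
    rintro n k l w ⟨n', k', -, -, -, rfl⟩
    exact ⟨n', _, _, rfl⟩
  have h3 : ∀ n (k : Fin (G.r n)) l, ∀ w ∈ Oth ω n k l,
      ∃ (m : ℕ) (x : Xn m) (z : Ys m 0), w = pst m x z := by
    rintro n k l w ⟨n', k', -, -, -, rfl⟩
    exact ⟨n', _, _, rfl⟩
  have h4 : LocA (ign G.acc (Spt ω)) := (hFMP G.acc (Spt ω) h1).1 hL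
  exact ⟨h4, fun n k => (hFMP G.acc (Lat ω n k) (h2 n k)).1 hL,
    fun n k => (hFMP G.acc (Oth ω n k) (h3 n k)).1 hL, (hORC _ h4 _).1, h2, h3⟩

end Pool.Agent.H11.GG
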